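import Pool.Agent.Helper69.TPF.St3

/-!
# Project TPF of helper69, module EPS: adapted generators
-/

set_option autoImplicit false

namespace Pool.Agent.Helper19.TPF

open Pool.Agent.Helper69.TPF
open Pool.Agent.Helper6.TS

/-- Adapted generators. -/
theorem cEPS (gal : St_GAL) : St_EPS := by
  intro g m t l a ha
  choose w hw using fun s : Fin g => ha (tgt t l s)
  have h1 : GenMod (a.ker ⊔ lev (FreeGroup (Fin g)) m) w := by
    apply genMod_of_le
    intro K h1 h2
    have h3 : K.map a = ⊤ := by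
      rw [← top_le_iff, ← FreeGroup.closure_range_of, Subgroup.closure_le]
      rintro _ ⟨⟨s, hs⟩, rfl⟩
      refine ⟨w s, h1 s, ?_⟩
      rw [hw]
      unfold tgt
      rw [dif_pos hs]
    rw [Subgroup.eq_top_iff']
    intro x
    have h4 : a x ∈ K.map a := h3 ▸ Subgroup.mem_top _
    obtain ⟨z, hz, hzx⟩ := h4
    have h5 : z⁻¹ * x ∈ a.ker := by
      rw [MonoidHom.mem_ker, map_mul, map_inv, hzx, inv_mul_cancel]
    have h6 := K.mul_mem hz (h2 ((le_sup_left : a.ker ≤ a.ker ⊔ lev (FreeGroup (Fin g)) m) h5))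
    rwa [mul_inv_cancel_left] at h6
  obtain ⟨c, hc, hg⟩ := gal g m a.ker w h1
  refine ⟨fun s => w s * c s, fun s => ?_, hg⟩
  rw [map_mul, hw, MonoidHom.mem_ker.1 (hc s), mul_one]

end Pool.Agent.Helper19.TPF
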